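import Pool.Agent.Work.MP_ee7661_gt.MFinal

open Pool.Agent.Lib.ZFModel Pool.Agent.Work.MP_63c7e0_lc Pool.Agent.Work.MP_ee7661_gt

/-- There is a model of ZFC, Martin's axiom and the negation of the continuum hypothesis containing
a zero-dimensional `T₁` Lindelöf space `Y` and a compact subspace `K` of `C_p(Y, 2)` that is not
sequential and has uncountable tightness. -/
theorem Pool.Agent.Results.MP_ee7661_gt.ConMACounter.result :
    ∃ (M : Type 1) (E : M → M → Prop), IsZFC E ∧ MartinAxiom E ∧ NotCH E ∧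
      ∃ Y τ K σ : M, IsTop E Y τ ∧ IsT1 E Y τ ∧ ZeroDim E Y τ ∧ IsLindelofSp E Y τ ∧
        IsCpTwoSubspace E Y τ K σ ∧ IsCompactSp E K σ ∧ ¬ IsSequentialSp E K σ ∧
        UncountableTightness E K σ :=
  MA.final
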