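import Pool.Agent.Work.MP_ee7661_gt.Main
import Pool.Agent.Work.MP_ee7661_gt.Ext

open Pool.Agent.Lib.ZFModel Pool.Agent.Work.MP_63c7e0_lc Pool.Agent.Work.MP_ee7661_gt

/-- There is a model of ZFC containing a zero-dimensional `T₁` hereditarily Lindelöf space `Y` and
a compact subspace `K` of `C_p(Y, 2)` of uncountable tightness. -/
theorem Pool.Agent.Results.MP_ee7661_gt.ConUncTight.result :
    ∃ (M : Type 1) (E : M → M → Prop), IsZFC E ∧
      ∃ Y τ K σ : M, IsTop E Y τ ∧ IsT1 E Y τ ∧ ZeroDim E Y τ ∧ IsHerLindelof E τ ∧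
        IsCpTwoSubspace E Y τ K σ ∧ IsCompactSp E K σ ∧ UncountableTightness E K σ := by
  obtain ⟨M, E, zfc, J, _, _, ⟨kd⟩⟩ := exists_kd
  exact ⟨M, E, zfc, kd.model zfc⟩
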